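import Mathlib

/-!
De Branges spaces of entire functions and the translation group: definitions.
-/

namespace Pool.Agent.R884.DB

open Filter Topology MeasureTheory

/-- The open upper half-plane. -/
def UHP : Set ℂ := {z | 0 < z.im}

/-- `F^*(z) = conj (F (conj z))`. -/
noncomputable def refl (F : ℂ → ℂ) : ℂ → ℂ :=
  fun z => (starRingEnd ℂ) (F ((starRingEnd ℂ) z))

/-- `f` is holomorphic and of bounded type in the upper half-plane: there `f = g / h` with `g`,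
`h` bounded and holomorphic and `h` not identically zero. -/
def BoundedType (f : ℂ → ℂ) : Prop :=
  DifferentiableOn ℂ f UHP ∧ ∃ g h : ℂ → ℂ,
    DifferentiableOn ℂ g UHP ∧ DifferentiableOn ℂ h UHP ∧
    (∃ C : ℝ, ∀ z ∈ UHP, ‖g z‖ ≤ C ∧ ‖h z‖ ≤ C) ∧ (∃ z ∈ UHP, h z ≠ 0) ∧
    ∀ z ∈ UHP, f z * h z = g z

/-- `limsup_{y → +∞} y⁻¹ log |f(iy)| ≤ 0`: for every `ε > 0`, `|f(iy)| ≤ e^{ε y}` for all large
`y`. -/
def NonposMeanType (f : ℂ → ℂ) : Prop :=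
  ∀ ε : ℝ, 0 < ε → ∀ᶠ y : ℝ in atTop, ‖f ((y : ℂ) * Complex.I)‖ ≤ Real.exp (ε * y)

/-- `E` is entire and `|E(conj z)| < |E(z)|` for `Im z > 0`. -/
def IsHB (E : ℂ → ℂ) : Prop :=
  Differentiable ℂ E ∧ ∀ z ∈ UHP, ‖E ((starRingEnd ℂ) z)‖ < ‖E z‖

/-- `F` belongs to the de Branges space `H(E)`. -/
def MemH (E F : ℂ → ℂ) : Prop :=
  Differentiable ℂ F ∧ Integrable (fun t : ℝ => ‖F t / E t‖ ^ 2) ∧
    BoundedType (fun z => F z / E z) ∧ NonposMeanType (fun z => F z / E z) ∧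
    BoundedType (fun z => refl F z / E z) ∧ NonposMeanType (fun z => refl F z / E z)

/-- The norm of `H(E)`. -/
noncomputable def nrmH (E F : ℂ → ℂ) : ℝ := Real.sqrt (∫ t : ℝ, ‖F t / E t‖ ^ 2)

/-- The translation group acts continuously on `H(E)`. -/
def TranslationActs (E : ℂ → ℂ) : Prop :=
  (∀ F, MemH E F → ∀ z : ℂ, MemH E (fun ζ => F (ζ + z))) ∧
    ∀ F, MemH E F → ∀ w : ℂ,
      Tendsto (fun z : ℂ => nrmH E (fun ζ => F (ζ + z) - F (ζ + w))) (𝓝 w) (𝓝 0)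

end Pool.Agent.R884.DB
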