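import Pool.Agent.R884.DB.Prod

/-!
The de Branges space `H(E)` of the product `E` is not invariant under translations.
-/

namespace Pool.Agent.R884.DB

open Filter Topology MeasureTheory Set

/-- all points -/
def S0 : ℕ → Finset ℕ := fun k => Finset.range (4 ^ k)

lemma hS0 : ∀ k, S0 k ⊆ Finset.range (4 ^ k) := fun _ => le_rfl

/-- the entire function `E` -/
noncomputable def E : ℂ → ℂ := Pr S0

/-- omit the zero `pt m 0` -/
noncomputable def Sm (m : ℕ) : ℕ → Finset ℕ :=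
  Function.update S0 m ((Finset.range (4 ^ m)).erase 0)

lemma hSm (m : ℕ) : ∀ k, Sm m k ⊆ Finset.range (4 ^ k) :=
  update_sub hS0 m (Finset.erase_subset _ _)

/-- `E` without the factor of `pt m 0` -/
noncomputable def Em (m : ℕ) : ℂ → ℂ := Pr (Sm m)

lemma E_eq (m : ℕ) (z : ℂ) : E z = (1 - z / pt m 0) * Em m z := by
  unfold E Em
  rw [Pr_split hS0 m z, Pr_split (hSm m) m z]
  have e1 : Function.update (Sm m) m ∅ = Function.update S0 m ∅ := by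
    unfold Sm
    rw [Function.update_idem]
  have e2 : Sm m m = (Finset.range (4 ^ m)).erase 0 := by
    unfold Sm
    rw [Function.update_self]
  rw [e1, e2, ← mul_assoc]
  congr 1
  unfold blk S0
  rw [Finset.mul_prod_erase (Finset.range (4 ^ m)) (fun j => 1 - z / pt m j)
    (Finset.mem_range.2 (by positivity))]

lemma pt_ne_of_im {z : ℂ} (hz : 0 ≤ z.im) (k j : ℕ) : pt k j ≠ z := by
  rintro rfl
  rw [pt_im] at hz
  have : (0 : ℝ) ≤ j := Nat.cast_nonneg j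
  linarith

lemma E_ne {z : ℂ} (hz : 0 ≤ z.im) : E z ≠ 0 := Pr_ne_zero hS0 (pt_ne_of_im hz)

lemma conj_le {z : ℂ} (hz : 0 ≤ z.im) (k j : ℕ) :
    ‖pt k j - (starRingEnd ℂ) z‖ ≤ ‖pt k j - z‖ := by
  rw [← pow_le_pow_iff_left₀ (norm_nonneg _) (norm_nonneg _) (by norm_num : (2 : ℕ) ≠ 0),
    pt_sub_sq, pt_sub_sq, Complex.conj_re, Complex.conj_im]
  have : (0 : ℝ) ≤ j := Nat.cast_nonneg j
  nlinarith

lemma E_hb : IsHB E := by
  refine ⟨Pr_diff hS0, fun z hz => ?_⟩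
  have hz' : 0 < z.im := hz
  rw [E_eq 0, E_eq 0, norm_mul, norm_mul]
  have h1 : ‖Em 0 ((starRingEnd ℂ) z)‖ ≤ ‖Em 0 z‖ := Pr_mono (hSm 0) (conj_le hz'.le)
  have h2 : 0 < ‖Em 0 z‖ := norm_pos_iff.2 (Pr_ne_zero (hSm 0) (pt_ne_of_im hz'.le))
  have h3 : ‖1 - (starRingEnd ℂ) z / pt 0 0‖ < ‖1 - z / pt 0 0‖ := by
    rw [factor_norm, factor_norm]
    apply div_lt_div_of_pos_right _ (norm_pt_pos 0 0)
    rw [← pow_lt_pow_iff_left₀ (norm_nonneg _) (norm_nonneg _) (by norm_num : (2 : ℕ) ≠ 0),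
      pt_sub_sq, pt_sub_sq, Complex.conj_re, Complex.conj_im]
    push_cast
    nlinarith
  calc ‖1 - (starRingEnd ℂ) z / pt 0 0‖ * ‖Em 0 ((starRingEnd ℂ) z)‖
      ≤ ‖1 - (starRingEnd ℂ) z / pt 0 0‖ * ‖Em 0 z‖ := mul_le_mul_of_nonneg_left h1 (norm_nonneg _)
    _ < _ := mul_lt_mul_of_pos_right h3 h2

/-- weights -/
noncomputable def wt (m : ℕ) : ℝ := (1 / 4) ^ m

lemma wt_pos (m : ℕ) : 0 < wt m := by unfold wt; positivity

lemma wt_summable : Summable wt := summable_geometric_of_lt_one (by norm_num) (by norm_num)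

lemma wt_tsum : ∑' m, wt m = 4 / 3 := by
  unfold wt
  rw [tsum_geometric_of_lt_one (by norm_num) (by norm_num)]
  norm_num

/-- the terms of the special function -/
noncomputable def Ft (m : ℕ) (z : ℂ) : ℂ := (wt m : ℂ) * (-(Em m z) / pt m 0)

/-- the special function -/
noncomputable def F (z : ℂ) : ℂ := ∑' m, Ft m z

lemma one_le_pt (m : ℕ) : 1 ≤ ‖pt m 0‖ := (one_le_X m).trans (X_le_norm m 0)

lemma norm_wt (m : ℕ) : ‖(wt m : ℂ)‖ = wt m := by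
  rw [Complex.norm_real, Real.norm_eq_abs, abs_of_pos (wt_pos m)]

lemma Ft_norm (m : ℕ) (z : ℂ) : ‖Ft m z‖ = wt m * (‖Em m z‖ / ‖pt m 0‖) := by
  unfold Ft
  rw [norm_mul, norm_div, norm_neg, norm_wt]

lemma Ft_le (m : ℕ) {r : ℝ} {z : ℂ} (hz : ‖z‖ ≤ r) : ‖Ft m z‖ ≤ Real.exp r * wt m := by
  rw [Ft_norm, mul_comm]
  apply mul_le_mul_of_nonneg_right _ (wt_pos m).le
  have h1 : ‖Em m z‖ ≤ Real.exp r :=
    (Pr_norm_le (hSm m) z).trans (Real.exp_le_exp.2 hz)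
  exact (div_le_self (norm_nonneg _) (one_le_pt m)).trans h1

lemma F_diff : Differentiable ℂ F := by
  intro z
  have h := Complex.differentiableOn_tsum_of_summable_norm (F := Ft) (U := Metric.ball (0 : ℂ) (‖z‖ + 1))
    (wt_summable.mul_left (Real.exp (‖z‖ + 1)))
    (fun m => (((Pr_diff (hSm m)).neg.div_const _).const_mul _).differentiableOn)
    Metric.isOpen_ball (fun m w hw => Ft_le m (by
      rw [Metric.mem_ball, dist_zero_right] at hw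
      exact hw.le))
  exact h.differentiableAt (Metric.isOpen_ball.mem_nhds (by
    rw [Metric.mem_ball, dist_zero_right]; linarith))

/-- the meromorphic quotient `F / E` -/
noncomputable def Sg (z : ℂ) : ℂ := ∑' m, (wt m : ℂ) / (z - pt m 0)

lemma F_eq {z : ℂ} (hz : 0 ≤ z.im) : F z = E z * Sg z := by
  unfold F Sg
  rw [← tsum_mul_left]
  congr 1
  funext m
  unfold Ft
  have h1 : z - pt m 0 ≠ 0 := sub_ne_zero.2 (Ne.symm (pt_ne_of_im hz m 0))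
  have h2 := pt_ne m 0
  rw [E_eq m z]
  field_simp
  ring

lemma F_div {z : ℂ} (hz : 0 ≤ z.im) : F z / E z = Sg z := by
  rw [F_eq hz, mul_div_cancel_left₀ _ (E_ne hz)]

lemma one_le_dist {z : ℂ} (hz : 0 ≤ z.im) (m : ℕ) : 1 ≤ ‖z - pt m 0‖ := by
  have h := Complex.abs_im_le_norm (z - pt m 0)
  rw [Complex.sub_im, pt_im] at h
  push_cast at h
  refine le_trans ?_ h
  rw [abs_of_nonneg (by linarith)]
  linarith

lemma term_le {z : ℂ} (hz : 0 ≤ z.im) (m : ℕ) : ‖(wt m : ℂ) / (z - pt m 0)‖ ≤ wt m := by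
  rw [norm_div, norm_wt]
  exact div_le_self (wt_pos m).le (one_le_dist hz m)

lemma term_summable {z : ℂ} (hz : 0 ≤ z.im) : Summable fun m => (wt m : ℂ) / (z - pt m 0) :=
  Summable.of_norm_bounded wt_summable (term_le hz)

lemma Sg_le {z : ℂ} (hz : 0 ≤ z.im) : ‖Sg z‖ ≤ 4 / 3 := by
  rw [← wt_tsum]
  exact tsum_of_norm_bounded wt_summable.hasSum (term_le hz)

lemma refl_le {z : ℂ} (hz : 0 < z.im) : ‖refl F z‖ ≤ 4 / 3 * ‖E z‖ := by
  unfold refl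
  rw [RCLike.norm_conj]
  have h1 : ∀ m, ‖Ft m ((starRingEnd ℂ) z)‖ ≤ ‖E z‖ * wt m := by
    intro m
    rw [Ft_norm, mul_comm]
    apply mul_le_mul_of_nonneg_right _ (wt_pos m).le
    have h2 : ‖Em m ((starRingEnd ℂ) z)‖ ≤ ‖Em m z‖ := Pr_mono (hSm m) (conj_le hz.le)
    rw [div_le_iff₀ (norm_pt_pos m 0), E_eq m z, norm_mul, factor_norm]
    have h3 := norm_pt_pos m 0
    have h4 := one_le_dist hz.le m
    rw [norm_sub_rev] at h4
    have e : ‖pt m 0 - z‖ / ‖pt m 0‖ * ‖Em m z‖ * ‖pt m 0‖ = ‖pt m 0 - z‖ * ‖Em m z‖ := by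
      field_simp
    rw [e]
    nlinarith [norm_nonneg (Em m z)]
  have h5 := tsum_of_norm_bounded (wt_summable.mul_left ‖E z‖).hasSum h1
  rw [tsum_mul_left, wt_tsum] at h5
  unfold F
  linarith

lemma isOpen_UHP : IsOpen UHP := isOpen_lt continuous_const Complex.continuous_im

lemma bt_of_bdd {f : ℂ → ℂ} (hf : DifferentiableOn ℂ f UHP) {C : ℝ} (hC : ∀ z ∈ UHP, ‖f z‖ ≤ C) :
    BoundedType f := by
  refine ⟨hf, f, fun _ => 1, hf, differentiableOn_const 1, ⟨max C 1, fun z hz => ⟨?_, ?_⟩⟩,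
    ⟨Complex.I, ?_, one_ne_zero⟩, fun z _ => mul_one _⟩
  · exact (hC z hz).trans (le_max_left _ _)
  · rw [norm_one]; exact le_max_right _ _
  · change 0 < Complex.I.im
    rw [Complex.I_im]; exact one_pos

lemma mt_of_bdd {f : ℂ → ℂ} {C : ℝ} (hC : ∀ z ∈ UHP, ‖f z‖ ≤ C) : NonposMeanType f := by
  intro ε hε
  have h1 : Tendsto (fun y : ℝ => Real.exp (ε * y)) atTop atTop :=
    Real.tendsto_exp_atTop.comp (tendsto_id.const_mul_atTop hε)
  filter_upwards [h1.eventually_ge_atTop C, eventually_gt_atTop 0] with y hy hy0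
  refine (hC _ ?_).trans hy
  change 0 < ((y : ℂ) * Complex.I).im
  simpa using hy0

lemma div_diff {G : ℂ → ℂ} (hG : Differentiable ℂ G) :
    DifferentiableOn ℂ (fun z => G z / E z) UHP :=
  hG.differentiableOn.div (Pr_diff hS0).differentiableOn (fun _ hz => E_ne (le_of_lt hz))

lemma refl_diff {G : ℂ → ℂ} (hG : Differentiable ℂ G) : Differentiable ℂ (refl G) := by
  intro z
  have h := (hG ((starRingEnd ℂ) z)).conj_conj
  rwa [Complex.conj_conj] at h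

/-! ### square integrability -/

lemma dist_sq (m : ℕ) (t : ℝ) : ‖(t : ℂ) - pt m 0‖ ^ 2 = 1 + (t - X m) ^ 2 := by
  rw [norm_sub_rev, pt_sub_sq]
  simp
  ring

lemma Sg_sq_le (t : ℝ) : ‖Sg t‖ ^ 2 ≤ ∑' m, 4 / 3 * wt m * (1 + (t - X m) ^ 2)⁻¹ := by
  have hz : 0 ≤ (t : ℂ).im := by simp
  have hle : ∀ m, 4 / 3 * wt m * (1 + (t - X m) ^ 2)⁻¹ ≤ 4 / 3 * wt m := by
    intro m
    have h1 : (1 + (t - X m) ^ 2)⁻¹ ≤ 1 := inv_le_one_of_one_le₀ (by nlinarith [sq_nonneg (t - X m)])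
    have h2 := wt_pos m
    nlinarith
  have hsum : Summable fun m => 4 / 3 * wt m * (1 + (t - X m) ^ 2)⁻¹ :=
    Summable.of_nonneg_of_le (fun m => by have := wt_pos m; positivity) hle
      (wt_summable.mul_left _)
  have ht := (term_summable hz).hasSum.tendsto_sum_nat
  apply le_of_tendsto (ht.norm.pow 2)
  refine Eventually.of_forall fun n => ?_
  have h1 : ‖∑ m ∈ Finset.range n, (wt m : ℂ) / ((t : ℂ) - pt m 0)‖ ≤
      ∑ m ∈ Finset.range n, (1 / 2) ^ m * ((1 / 2) ^ m * ‖(t : ℂ) - pt m 0‖⁻¹) := by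
    refine (norm_sum_le _ _).trans (le_of_eq ?_)
    apply Finset.sum_congr rfl
    intro m _
    rw [norm_div, norm_wt, ← mul_assoc, ← mul_pow]
    unfold wt
    norm_num
    rfl
  have h2 := Finset.sum_mul_sq_le_sq_mul_sq (Finset.range n) (fun m : ℕ => ((1 : ℝ) / 2) ^ m)
    (fun m : ℕ => (1 / 2) ^ m * ‖(t : ℂ) - pt m 0‖⁻¹)
  have h3 : ∑ m ∈ Finset.range n, (((1 : ℝ) / 2) ^ m) ^ 2 ≤ 4 / 3 := by
    rw [← wt_tsum]
    have e : ∀ m ∈ Finset.range n, (((1 : ℝ) / 2) ^ m) ^ 2 = wt m := by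
      intro m _
      rw [← pow_mul, mul_comm, pow_mul]
      unfold wt
      norm_num
    rw [Finset.sum_congr rfl e]
    exact wt_summable.sum_le_tsum _ (fun m _ => (wt_pos m).le)
  have h4 : 4 / 3 * ∑ m ∈ Finset.range n, ((1 / 2) ^ m * ‖(t : ℂ) - pt m 0‖⁻¹) ^ 2 ≤
      ∑' m, 4 / 3 * wt m * (1 + (t - X m) ^ 2)⁻¹ := by
    rw [Finset.mul_sum]
    have e : ∀ m ∈ Finset.range n, 4 / 3 * ((1 / 2) ^ m * ‖(t : ℂ) - pt m 0‖⁻¹) ^ 2 =
        4 / 3 * wt m * (1 + (t - X m) ^ 2)⁻¹ := by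
      intro m _
      rw [mul_pow, inv_pow, dist_sq, ← pow_mul, mul_comm m 2, pow_mul]
      unfold wt
      norm_num
      ring
    rw [Finset.sum_congr rfl e]
    exact hsum.sum_le_tsum _ (fun m _ => by have := wt_pos m; positivity)
  have h5 : 0 ≤ ∑ m ∈ Finset.range n, ((1 / 2) ^ m * ‖(t : ℂ) - pt m 0‖⁻¹) ^ 2 :=
    Finset.sum_nonneg fun _ _ => sq_nonneg _
  calc ‖∑ m ∈ Finset.range n, (wt m : ℂ) / ((t : ℂ) - pt m 0)‖ ^ 2
      ≤ (∑ m ∈ Finset.range n, (1 / 2) ^ m * ((1 / 2) ^ m * ‖(t : ℂ) - pt m 0‖⁻¹)) ^ 2 :=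
        pow_le_pow_left₀ (norm_nonneg _) h1 2
    _ ≤ (∑ m ∈ Finset.range n, (((1 : ℝ) / 2) ^ m) ^ 2) *
        ∑ m ∈ Finset.range n, ((1 / 2) ^ m * ‖(t : ℂ) - pt m 0‖⁻¹) ^ 2 := h2
    _ ≤ 4 / 3 * ∑ m ∈ Finset.range n, ((1 / 2) ^ m * ‖(t : ℂ) - pt m 0‖⁻¹) ^ 2 :=
        mul_le_mul_of_nonneg_right h3 h5
    _ ≤ _ := h4

lemma F_sq_integrable : Integrable (fun t : ℝ => ‖F t / E t‖ ^ 2) := by
  have hcont : Continuous fun t : ℝ => ‖F t / E t‖ ^ 2 := by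
    have h1 : Continuous fun t : ℝ => F t / E t :=
      (F_diff.continuous.comp Complex.continuous_ofReal).div
        ((Pr_diff hS0).continuous.comp Complex.continuous_ofReal) (fun t => E_ne (by simp))
    exact h1.norm.pow 2
  have hint : ∀ m, Integrable fun t : ℝ => 4 / 3 * wt m * (1 + (t - X m) ^ 2)⁻¹ := by
    intro m
    exact (integrable_inv_one_add_sq.comp_sub_right (X m)).const_mul _
  have hval : ∀ m, ∫ t : ℝ, 4 / 3 * wt m * (1 + (t - X m) ^ 2)⁻¹ = 4 / 3 * wt m * Real.pi := by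
    intro m
    rw [integral_const_mul, integral_sub_right_eq_self (fun t : ℝ => (1 + t ^ 2)⁻¹) (X m),
      integral_univ_inv_one_add_sq]
  refine ⟨hcont.aestronglyMeasurable, ?_⟩
  rw [hasFiniteIntegral_iff_ofReal (Eventually.of_forall fun t => sq_nonneg _)]
  have h1 : ∫⁻ t : ℝ, ENNReal.ofReal (‖F t / E t‖ ^ 2) ≤
      ∫⁻ t : ℝ, ∑' m, ENNReal.ofReal (4 / 3 * wt m * (1 + (t - X m) ^ 2)⁻¹) := by
    apply lintegral_mono
    intro t
    simp only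
    rw [F_div (by simp : 0 ≤ (t : ℂ).im)]
    refine (ENNReal.ofReal_le_ofReal (Sg_sq_le t)).trans ?_
    rw [ENNReal.ofReal_tsum_of_nonneg (fun m => by have := wt_pos m; positivity)]
    refine Summable.of_nonneg_of_le (fun m => by have := wt_pos m; positivity) (fun m => ?_)
      (wt_summable.mul_left (4 / 3))
    have h1 : (1 + (t - X m) ^ 2)⁻¹ ≤ 1 := inv_le_one_of_one_le₀ (by nlinarith [sq_nonneg (t - X m)])
    have h2 := wt_pos m
    nlinarith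
  refine h1.trans_lt ?_
  rw [lintegral_tsum (fun m => (hint m).aestronglyMeasurable.aemeasurable.ennreal_ofReal)]
  have h2 : ∀ m, ∫⁻ t : ℝ, ENNReal.ofReal (4 / 3 * wt m * (1 + (t - X m) ^ 2)⁻¹) =
      ENNReal.ofReal (4 / 3 * wt m * Real.pi) := by
    intro m
    rw [← hval m, ofReal_integral_eq_lintegral_ofReal (hint m)
      (Eventually.of_forall fun t => by have := wt_pos m; positivity)]
  simp only [h2]
  rw [← ENNReal.ofReal_tsum_of_nonneg (fun m => by have := wt_pos m; positivity)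
    ((wt_summable.mul_left (4 / 3)).mul_right Real.pi)]
  exact ENNReal.ofReal_lt_top

theorem F_mem : MemH E F := by
  have b1 : ∀ z ∈ UHP, ‖F z / E z‖ ≤ 4 / 3 := by
    intro z hz
    rw [F_div (le_of_lt hz)]
    exact Sg_le (le_of_lt hz)
  have b2 : ∀ z ∈ UHP, ‖refl F z / E z‖ ≤ 4 / 3 := by
    intro z hz
    rw [norm_div, div_le_iff₀ (norm_pos_iff.2 (E_ne (le_of_lt hz)))]
    exact refl_le hz
  exact ⟨F_diff, F_sq_integrable, bt_of_bdd (div_diff F_diff) b1, mt_of_bdd b1,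
    bt_of_bdd (div_diff (refl_diff F_diff)) b2, mt_of_bdd b2⟩

/-! ### the translate by `i` -/

lemma telescope (a : ℝ) (n : ℕ) :
    (∏ j ∈ Finset.range n, (a ^ 2 + ((j : ℝ) + 2) ^ 2)) * (a ^ 2 + 1) =
      (∏ j ∈ Finset.range n, (a ^ 2 + ((j : ℝ) + 1) ^ 2)) * (a ^ 2 + ((n : ℝ) + 1) ^ 2) := by
  induction n with
  | zero => simp
  | succ n ih =>
    rw [Finset.prod_range_succ, Finset.prod_range_succ]
    push_cast
    have : (∏ j ∈ Finset.range n, (a ^ 2 + ((j : ℝ) + 2) ^ 2)) * (a ^ 2 + ((n : ℝ) + 2) ^ 2) *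
        (a ^ 2 + 1) = ((∏ j ∈ Finset.range n, (a ^ 2 + ((j : ℝ) + 2) ^ 2)) * (a ^ 2 + 1)) *
        (a ^ 2 + ((n : ℝ) + 2) ^ 2) := by ring
    rw [this, ih]
    ring

lemma blk_up (m : ℕ) {t : ℝ} (ht : |t - X m| ≤ 1) :
    ((4 : ℝ) ^ m + 1) ^ 2 * ‖blk (S0 m) m t‖ ^ 2 ≤
      2 * ‖blk (S0 m) m ((t : ℂ) + Complex.I)‖ ^ 2 := by
  have e1 : ∀ z : ℂ, ‖blk (S0 m) m z‖ ^ 2 = (∏ j ∈ Finset.range (4 ^ m), ‖pt m j - z‖ ^ 2) /
      ∏ j ∈ Finset.range (4 ^ m), ‖pt m j‖ ^ 2 := by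
    intro z
    unfold blk S0
    rw [norm_prod, ← Finset.prod_pow, ← Finset.prod_div_distrib]
    apply Finset.prod_congr rfl
    intro j _
    rw [factor_norm, div_pow]
  have hD : 0 < ∏ j ∈ Finset.range (4 ^ m), ‖pt m j‖ ^ 2 :=
    Finset.prod_pos fun j _ => pow_pos (norm_pt_pos m j) 2
  rw [e1, e1, mul_div_assoc', mul_div_assoc']
  apply div_le_div_of_nonneg_right _ hD.le
  have e2 : ∏ j ∈ Finset.range (4 ^ m), ‖pt m j - (t : ℂ)‖ ^ 2 =
      ∏ j ∈ Finset.range (4 ^ m), ((t - X m) ^ 2 + ((j : ℝ) + 1) ^ 2) := by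
    apply Finset.prod_congr rfl
    intro j _
    rw [pt_sub_sq]
    simp
  have e3 : ∏ j ∈ Finset.range (4 ^ m), ‖pt m j - ((t : ℂ) + Complex.I)‖ ^ 2 =
      ∏ j ∈ Finset.range (4 ^ m), ((t - X m) ^ 2 + ((j : ℝ) + 2) ^ 2) := by
    apply Finset.prod_congr rfl
    intro j _
    rw [pt_sub_sq]
    simp
    ring
  rw [e2, e3]
  have h := telescope (t - X m) (4 ^ m)
  push_cast at h
  set P := ∏ j ∈ Finset.range (4 ^ m), ((t - X m) ^ 2 + ((j : ℝ) + 1) ^ 2)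
  set Q := ∏ j ∈ Finset.range (4 ^ m), ((t - X m) ^ 2 + ((j : ℝ) + 2) ^ 2)
  have hP : 0 ≤ P := Finset.prod_nonneg fun j _ => by positivity
  have hQ : 0 ≤ Q := Finset.prod_nonneg fun j _ => by positivity
  have h1 : (t - X m) ^ 2 ≤ 1 := by
    rw [← sq_abs]
    exact pow_le_one₀ (abs_nonneg _) ht
  have h2 : P * ((4 : ℝ) ^ m + 1) ^ 2 ≤ P * ((t - X m) ^ 2 + ((4 : ℝ) ^ m + 1) ^ 2) :=
    mul_le_mul_of_nonneg_left (by nlinarith [sq_nonneg (t - X m)]) hP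
  have h3 : Q * ((t - X m) ^ 2 + 1) ≤ Q * 2 := mul_le_mul_of_nonneg_left (by linarith) hQ
  linarith

lemma up_le (t : ℝ) (k j : ℕ) : ‖pt k j - (t : ℂ)‖ ≤ ‖pt k j - ((t : ℂ) + Complex.I)‖ := by
  rw [← pow_le_pow_iff_left₀ (norm_nonneg _) (norm_nonneg _) (by norm_num : (2 : ℕ) ≠ 0),
    pt_sub_sq, pt_sub_sq]
  have : (0 : ℝ) ≤ j := Nat.cast_nonneg j
  simp
  nlinarith

lemma E_up (m : ℕ) {t : ℝ} (ht : |t - X m| ≤ 1) :
    ((4 : ℝ) ^ m + 1) ^ 2 * ‖E t‖ ^ 2 ≤ 2 * ‖E ((t : ℂ) + Complex.I)‖ ^ 2 := by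
  unfold E
  rw [Pr_split hS0 m (t : ℂ), Pr_split hS0 m ((t : ℂ) + Complex.I), norm_mul, norm_mul, mul_pow,
    mul_pow]
  have h1 : ‖Pr (Function.update S0 m ∅) t‖ ^ 2 ≤
      ‖Pr (Function.update S0 m ∅) ((t : ℂ) + Complex.I)‖ ^ 2 :=
    pow_le_pow_left₀ (norm_nonneg _)
      (Pr_mono (update_sub hS0 m (Finset.empty_subset _)) (up_le t)) 2
  have h2 := blk_up m ht
  calc ((4 : ℝ) ^ m + 1) ^ 2 * (‖blk (S0 m) m t‖ ^ 2 * ‖Pr (Function.update S0 m ∅) t‖ ^ 2)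
      = (((4 : ℝ) ^ m + 1) ^ 2 * ‖blk (S0 m) m t‖ ^ 2) * ‖Pr (Function.update S0 m ∅) t‖ ^ 2 := by
        ring
    _ ≤ (2 * ‖blk (S0 m) m ((t : ℂ) + Complex.I)‖ ^ 2) *
        ‖Pr (Function.update S0 m ∅) ((t : ℂ) + Complex.I)‖ ^ 2 :=
        mul_le_mul h2 h1 (by positivity) (by positivity)
    _ = _ := by ring

lemma Sg_up (m : ℕ) {t : ℝ} (ht : |t - X m| ≤ 1) :
    2 / 5 * wt m ≤ ‖Sg ((t : ℂ) + Complex.I)‖ := by
  have hz : 0 ≤ ((t : ℂ) + Complex.I).im := by simp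
  have hs := (Complex.hasSum_im (term_summable hz).hasSum)
  have e : ∀ k, ((wt k : ℂ) / ((t : ℂ) + Complex.I - pt k 0)).im =
      -(2 * wt k / ((t - X k) ^ 2 + 4)) := by
    intro k
    have e1 : ((t : ℂ) + Complex.I - pt k 0).re = t - X k := by
      rw [Complex.sub_re, pt_re]; simp
    have e2 : ((t : ℂ) + Complex.I - pt k 0).im = 2 := by
      rw [Complex.sub_im, pt_im]; simp; norm_num
    rw [Complex.div_im, Complex.normSq_apply, e1, e2]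
    simp
    ring
  simp only [e] at hs
  have h1 := hs.neg
  simp only [neg_neg] at h1
  have h2 : 2 * wt m / ((t - X m) ^ 2 + 4) ≤ -(∑' k, (wt k : ℂ) / ((t : ℂ) + Complex.I - pt k 0)).im :=
    le_hasSum h1 m (fun k _ => by have := wt_pos k; positivity)
  have h3 : 2 / 5 * wt m ≤ 2 * wt m / ((t - X m) ^ 2 + 4) := by
    have h4 : (t - X m) ^ 2 ≤ 1 := by
      rw [← sq_abs]
      exact pow_le_one₀ (abs_nonneg _) ht
    rw [le_div_iff₀ (by positivity)]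
    have := wt_pos m
    nlinarith
  refine (h3.trans h2).trans ?_
  unfold Sg
  exact (neg_le_abs _).trans (Complex.abs_im_le_norm _)

lemma big (m : ℕ) {t : ℝ} (ht : |t - X m| ≤ 1) :
    2 / 25 ≤ ‖F ((t : ℂ) + Complex.I) / E t‖ ^ 2 := by
  have hz : 0 ≤ ((t : ℂ) + Complex.I).im := by simp
  have hE : 0 < ‖E t‖ := norm_pos_iff.2 (E_ne (by simp))
  rw [F_eq hz, norm_div, norm_mul, div_pow, mul_pow, le_div_iff₀ (by positivity)]
  have h1 := E_up m ht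
  have h2 := Sg_up m ht
  have h3 : (2 / 5 * wt m) ^ 2 ≤ ‖Sg ((t : ℂ) + Complex.I)‖ ^ 2 :=
    pow_le_pow_left₀ (by have := wt_pos m; positivity) h2 2
  have h4 : (1 : ℝ) ≤ ((4 : ℝ) ^ m + 1) * wt m := by
    unfold wt
    rw [one_div_pow, mul_one_div, le_div_iff₀ (by positivity)]
    linarith
  have h5 : (1 : ℝ) ≤ (((4 : ℝ) ^ m + 1) * wt m) ^ 2 := one_le_pow₀ h4
  have h6 : (((4 : ℝ) ^ m + 1) ^ 2 * ‖E t‖ ^ 2) * (2 / 5 * wt m) ^ 2 ≤
      (2 * ‖E ((t : ℂ) + Complex.I)‖ ^ 2) * ‖Sg ((t : ℂ) + Complex.I)‖ ^ 2 :=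
    mul_le_mul h1 h3 (by positivity) (by positivity)
  have h7 : (((4 : ℝ) ^ m + 1) ^ 2 * ‖E t‖ ^ 2) * (2 / 5 * wt m) ^ 2 =
      4 / 25 * (((4 : ℝ) ^ m + 1) * wt m) ^ 2 * ‖E t‖ ^ 2 := by ring
  have h8 : 4 / 25 * ‖E t‖ ^ 2 ≤ 4 / 25 * (((4 : ℝ) ^ m + 1) * wt m) ^ 2 * ‖E t‖ ^ 2 := by
    have := sq_nonneg ‖E t‖
    nlinarith
  linarith

lemma not_integrable : ¬ Integrable (fun t : ℝ => ‖F ((t : ℂ) + Complex.I) / E t‖ ^ 2) := by
  intro h
  have h1 := h.measure_norm_ge_lt_top (ε := 2 / 25) (by norm_num)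
  have h2 : (⋃ m : ℕ, Icc (X m - 1) (X m + 1)) ⊆
      {t : ℝ | 2 / 25 ≤ ‖‖F ((t : ℂ) + Complex.I) / E t‖ ^ 2‖} := by
    intro t ht
    obtain ⟨m, hm⟩ := mem_iUnion.1 ht
    have : |t - X m| ≤ 1 := by
      rw [abs_le]
      constructor <;> linarith [hm.1, hm.2]
    change 2 / 25 ≤ ‖‖F ((t : ℂ) + Complex.I) / E t‖ ^ 2‖
    rw [Real.norm_eq_abs, abs_of_nonneg (sq_nonneg _)]
    exact big m this
  have h3 : volume (⋃ m : ℕ, Icc (X m - 1) (X m + 1)) = ⊤ := by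
    rw [measure_iUnion]
    · have : ∀ m : ℕ, volume (Icc (X m - 1) (X m + 1)) = 2 := by
        intro m
        rw [Real.volume_Icc]
        have : X m + 1 - (X m - 1) = 2 := by ring
        rw [this]
        norm_num
      simp only [this]
      exact ENNReal.tsum_const_eq_top_of_ne_zero (by norm_num)
    · intro a b hab
      rw [Function.onFun, Set.disjoint_left]
      intro t ha hb
      apply hab
      have h16 : ∀ k, 16 ≤ X k := by
        intro k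
        unfold X
        calc (16 : ℝ) = 16 ^ 1 := (pow_one _).symm
          _ ≤ 16 ^ (k + 1) := pow_le_pow_right₀ (by norm_num) (by omega)
      apply near_unique (t := t)
      · rw [abs_lt]
        constructor <;> linarith [ha.1, ha.2, h16 a]
      · rw [abs_lt]
        constructor <;> linarith [hb.1, hb.2, h16 b]
    · intro m
      exact measurableSet_Icc
  have h4 := measure_mono (μ := volume) h2
  rw [h3, top_le_iff] at h4
  rw [h4] at h1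
  exact lt_irrefl _ h1

theorem not_translate : ¬ MemH E (fun ζ => F (ζ + Complex.I)) := by
  rintro ⟨_, h, _⟩
  exact not_integrable h

end Pool.Agent.R884.DB
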