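import Pool.Agent.R884.DB.Defs

/-!
The infinite product with zeros `16^(k+1) - (j+1) i`, `j < 4^k`.
-/

namespace Pool.Agent.R884.DB

open Filter Topology

/-- centre of the block `k` -/
noncomputable def X (k : ℕ) : ℝ := 16 ^ (k + 1)

/-- the points -/
noncomputable def pt (k j : ℕ) : ℂ := (X k : ℂ) - ((j : ℂ) + 1) * Complex.I

lemma pt_re (k j : ℕ) : (pt k j).re = X k := by
  simp [pt]

lemma pt_im (k j : ℕ) : (pt k j).im = -((j : ℝ) + 1) := by
  simp [pt]

lemma X_pos (k : ℕ) : 0 < X k := by unfold X; positivity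

lemma one_le_X (k : ℕ) : 1 ≤ X k := one_le_pow₀ (by norm_num)

lemma X_le_norm (k j : ℕ) : X k ≤ ‖pt k j‖ := by
  have h := Complex.abs_re_le_norm (pt k j)
  rw [pt_re] at h
  exact (le_abs_self _).trans h

lemma norm_pt_pos (k j : ℕ) : 0 < ‖pt k j‖ := (X_pos k).trans_le (X_le_norm k j)

lemma pt_ne (k j : ℕ) : pt k j ≠ 0 := norm_pos_iff.1 (norm_pt_pos k j)

/-- a finite product over a block -/
noncomputable def blk (A : Finset ℕ) (k : ℕ) (z : ℂ) : ℂ := ∏ j ∈ A, (1 - z / pt k j)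

/-- the infinite product -/
noncomputable def Pr (S : ℕ → Finset ℕ) (z : ℂ) : ℂ := ∏' k, blk (S k) k z

/-- size of the block -/
noncomputable def dl (k : ℕ) : ℝ := (1 / 16) * (1 / 4) ^ k

lemma dl_pos (k : ℕ) : 0 < dl k := by unfold dl; positivity

lemma dl_summable : Summable dl :=
  (summable_geometric_of_lt_one (by norm_num) (by norm_num)).mul_left _

lemma dl_tsum : ∑' k, dl k = 1 / 12 := by
  unfold dl
  rw [tsum_mul_left, tsum_geometric_of_lt_one (by norm_num) (by norm_num)]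
  norm_num

lemma dl_sum_le (s : Finset ℕ) : ∑ k ∈ s, dl k ≤ 1 / 12 := by
  rw [← dl_tsum]
  exact dl_summable.sum_le_tsum s (fun k _ => (dl_pos k).le)

lemma dl_eq (k : ℕ) : (4 : ℝ) ^ k / X k = dl k := by
  unfold X dl
  have : (16 : ℝ) ^ (k + 1) = 16 * (4 ^ k * 4 ^ k) := by
    rw [← mul_pow, pow_succ]
    norm_num
    ring
  rw [this, one_div_pow]
  have h4 : (4 : ℝ) ^ k ≠ 0 := by positivity
  field_simp

lemma card_le_of {A : Finset ℕ} {k : ℕ} (hA : A ⊆ Finset.range (4 ^ k)) :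
    (A.card : ℝ) ≤ 4 ^ k := by
  have := Finset.card_le_card hA
  rw [Finset.card_range] at this
  exact_mod_cast this

lemma sum_div_le {A : Finset ℕ} {k : ℕ} (hA : A ⊆ Finset.range (4 ^ k)) (z : ℂ) :
    ∑ j ∈ A, ‖z / pt k j‖ ≤ ‖z‖ * dl k := by
  have h1 : ∀ j ∈ A, ‖z / pt k j‖ ≤ ‖z‖ / X k := by
    intro j _
    rw [norm_div]
    exact div_le_div_of_nonneg_left (norm_nonneg _) (X_pos k) (X_le_norm k j)
  refine (Finset.sum_le_card_nsmul _ _ _ h1).trans ?_
  rw [nsmul_eq_mul, ← dl_eq]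
  have h2 := card_le_of hA
  have h3 : 0 ≤ ‖z‖ / X k := div_nonneg (norm_nonneg _) (X_pos k).le
  calc (A.card : ℝ) * (‖z‖ / X k) ≤ 4 ^ k * (‖z‖ / X k) := mul_le_mul_of_nonneg_right h2 h3
    _ = ‖z‖ * (4 ^ k / X k) := by ring

lemma blk_norm_le {A : Finset ℕ} {k : ℕ} (hA : A ⊆ Finset.range (4 ^ k)) (z : ℂ) :
    ‖blk A k z‖ ≤ Real.exp (‖z‖ * dl k) := by
  unfold blk
  rw [norm_prod]
  calc ∏ j ∈ A, ‖1 - z / pt k j‖ ≤ ∏ j ∈ A, Real.exp ‖z / pt k j‖ := by
        apply Finset.prod_le_prod (fun _ _ => norm_nonneg _)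
        intro j _
        refine (norm_sub_le _ _).trans ?_
        rw [norm_one, add_comm]
        exact Real.add_one_le_exp _
    _ = Real.exp (∑ j ∈ A, ‖z / pt k j‖) := (Real.exp_sum _ _).symm
    _ ≤ _ := Real.exp_le_exp.2 (sum_div_le hA z)

lemma exp_sub_one_le {a r : ℝ} (ha : 0 ≤ a) (har : a ≤ r) :
    Real.exp a - 1 ≤ a * Real.exp r := by
  have h1 : 1 - a ≤ Real.exp (-a) := by
    have := Real.add_one_le_exp (-a)
    linarith
  have h2 : (1 - a) * Real.exp a ≤ 1 := by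
    have := mul_le_mul_of_nonneg_right h1 (Real.exp_pos a).le
    rwa [← Real.exp_add, neg_add_cancel, Real.exp_zero] at this
  have h3 : Real.exp a ≤ Real.exp r := Real.exp_le_exp.2 har
  nlinarith [Real.exp_pos a]

lemma blk_sub_one_le {A : Finset ℕ} {k : ℕ} (hA : A ⊆ Finset.range (4 ^ k)) {r : ℝ} {z : ℂ}
    (hz : ‖z‖ ≤ r) : ‖blk A k z - 1‖ ≤ r * Real.exp r * dl k := by
  have h1 := A.norm_prod_one_add_sub_one_le (fun j => -(z / pt k j))
  simp only [← sub_eq_add_neg, norm_neg] at h1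
  have h2 := sum_div_le hA z
  have hr : 0 ≤ r := (norm_nonneg z).trans hz
  have hd := dl_pos k
  have hd1 : dl k ≤ 1 := by
    have := dl_sum_le {k}
    rw [Finset.sum_singleton] at this
    linarith
  have h3 : ‖z‖ * dl k ≤ r * dl k := mul_le_mul_of_nonneg_right hz hd.le
  have h4 : Real.exp (∑ j ∈ A, ‖z / pt k j‖) - 1 ≤ Real.exp (r * dl k) - 1 := by
    have := Real.exp_le_exp.2 (h2.trans h3)
    linarith
  have h5 := exp_sub_one_le (mul_nonneg hr hd.le) (show r * dl k ≤ r by nlinarith)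
  refine (h1.trans h4).trans (h5.trans (le_of_eq ?_))
  ring

section
variable {S : ℕ → Finset ℕ} (hS : ∀ k, S k ⊆ Finset.range (4 ^ k))
include hS

lemma multipliable (z : ℂ) : Multipliable fun k => blk (S k) k z := by
  have h : Summable fun k => ‖blk (S k) k z - 1‖ :=
    Summable.of_nonneg_of_le (fun _ => norm_nonneg _)
      (fun k => blk_sub_one_le (hS k) le_rfl) (dl_summable.mul_left _)
  have := multipliable_one_add_of_summable h
  simpa using this

lemma tendsto_Pr (z : ℂ) :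
    Tendsto (fun K => ∏ k ∈ Finset.range K, blk (S k) k z) atTop (𝓝 (Pr S z)) :=
  (multipliable hS z).hasProd.tendsto_prod_nat

omit hS in
lemma blk_diff (A : Finset ℕ) (k : ℕ) : Differentiable ℂ (blk A k) := by
  unfold blk
  apply Differentiable.fun_finsetProd
  intro j _
  exact (differentiable_const 1).sub (differentiable_id.div_const _)

lemma Pr_diff : Differentiable ℂ (Pr S) := by
  intro z
  set r := ‖z‖ + 1
  have h := (dl_summable.mul_left (r * Real.exp r)).hasProdLocallyUniformlyOn_nat_one_add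
    (f := fun k z => blk (S k) k z - 1) (K := Metric.ball (0 : ℂ) r) Metric.isOpen_ball
    (Eventually.of_forall fun k w hw => blk_sub_one_le (hS k) (by
      rw [Metric.mem_ball, dist_zero_right] at hw
      exact hw.le))
    (fun k => ((blk_diff (S k) k).continuous.sub continuous_const).continuousOn)
  have h2 : DifferentiableOn ℂ (fun x => ∏' i, (1 + (blk (S i) i x - 1))) (Metric.ball 0 r) := by
    refine h.differentiableOn ?_ Metric.isOpen_ball
    refine Eventually.of_forall fun s => ?_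
    have : ∀ i ∈ s, DifferentiableOn ℂ (fun x => 1 + (blk (S i) i x - 1)) (Metric.ball 0 r) :=
      fun i _ => (((blk_diff (S i) i).sub_const 1).const_add 1).differentiableOn
    simpa [Finset.prod_fn] using DifferentiableOn.fun_finsetProd this
  have h3 : (fun x => ∏' i, (1 + (blk (S i) i x - 1))) = Pr S := by
    funext x
    unfold Pr
    congr 1
    funext i
    ring
  rw [h3] at h2
  exact h2.differentiableAt (Metric.isOpen_ball.mem_nhds (by
    rw [Metric.mem_ball, dist_zero_right]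
    simp [r]))

lemma Pr_norm_le (z : ℂ) : ‖Pr S z‖ ≤ Real.exp ‖z‖ := by
  apply le_of_tendsto (tendsto_Pr hS z).norm
  refine Eventually.of_forall fun K => ?_
  rw [norm_prod]
  calc ∏ k ∈ Finset.range K, ‖blk (S k) k z‖
      ≤ ∏ k ∈ Finset.range K, Real.exp (‖z‖ * dl k) :=
        Finset.prod_le_prod (fun _ _ => norm_nonneg _) (fun k _ => blk_norm_le (hS k) z)
    _ = Real.exp (‖z‖ * ∑ k ∈ Finset.range K, dl k) := by
        rw [← Real.exp_sum, Finset.mul_sum]
    _ ≤ _ := by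
        apply Real.exp_le_exp.2
        have := dl_sum_le (Finset.range K)
        nlinarith [norm_nonneg z]

omit hS in
lemma factor_norm (k j : ℕ) (z : ℂ) : ‖1 - z / pt k j‖ = ‖pt k j - z‖ / ‖pt k j‖ := by
  rw [← norm_div, sub_div, div_self (pt_ne k j)]

omit hS in
lemma blk_mono (A : Finset ℕ) (k : ℕ) {z w : ℂ} (h : ∀ j, ‖pt k j - z‖ ≤ ‖pt k j - w‖) :
    ‖blk A k z‖ ≤ ‖blk A k w‖ := by
  unfold blk
  rw [norm_prod, norm_prod]
  apply Finset.prod_le_prod (fun _ _ => norm_nonneg _)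
  intro j _
  rw [factor_norm, factor_norm]
  exact div_le_div_of_nonneg_right (h j) (norm_nonneg _)

lemma Pr_mono {z w : ℂ} (h : ∀ k j, ‖pt k j - z‖ ≤ ‖pt k j - w‖) : ‖Pr S z‖ ≤ ‖Pr S w‖ := by
  apply le_of_tendsto_of_tendsto' (tendsto_Pr hS z).norm (tendsto_Pr hS w).norm
  intro K
  rw [norm_prod, norm_prod]
  exact Finset.prod_le_prod (fun _ _ => norm_nonneg _) (fun k _ => blk_mono (S k) k (h k))

omit hS in
lemma blk_ne_zero (A : Finset ℕ) (k : ℕ) {z : ℂ} (h : ∀ j, pt k j ≠ z) : blk A k z ≠ 0 := by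
  unfold blk
  rw [Finset.prod_ne_zero_iff]
  intro j _ h0
  apply h j
  have h1 : z / pt k j = 1 := by linear_combination -h0
  exact ((div_eq_one_iff_eq (pt_ne k j)).1 h1).symm

lemma Pr_ne_zero {z : ℂ} (h : ∀ k j, pt k j ≠ z) : Pr S z ≠ 0 := by
  have h1 : ∏' k, (1 + (blk (S k) k z - 1)) ≠ 0 := by
    apply tprod_one_add_ne_zero_of_summable
    · intro k
      rw [add_sub_cancel]
      exact blk_ne_zero (S k) k (h k)
    · exact Summable.of_nonneg_of_le (fun _ => norm_nonneg _)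
        (fun k => blk_sub_one_le (hS k) le_rfl) (dl_summable.mul_left _)
  unfold Pr
  convert h1 using 3
  ring

lemma update_sub (m : ℕ) {A : Finset ℕ} (hA : A ⊆ Finset.range (4 ^ m)) :
    ∀ k, Function.update S m A k ⊆ Finset.range (4 ^ k) := by
  intro k
  by_cases h : k = m
  · subst h; rw [Function.update_self]; exact hA
  · rw [Function.update_of_ne h]; exact hS k

lemma Pr_split (m : ℕ) (z : ℂ) :
    Pr S z = blk (S m) m z * Pr (Function.update S m ∅) z := by
  have h1 := tendsto_Pr hS z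
  have h2 := (tendsto_Pr (update_sub hS m (Finset.empty_subset _)) z).const_mul (blk (S m) m z)
  refine tendsto_nhds_unique_of_eventuallyEq h1 h2 ?_
  filter_upwards [eventually_gt_atTop m] with K hK
  have hm : m ∈ Finset.range K := Finset.mem_range.2 hK
  rw [← Finset.mul_prod_erase _ _ hm, ← Finset.mul_prod_erase (Finset.range K)
    (fun k => blk (Function.update S m ∅ k) k z) hm]
  have e1 : blk (Function.update S m ∅ m) m z = 1 := by
    rw [Function.update_self]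
    unfold blk
    rw [Finset.prod_empty]
  have e2 : ∏ k ∈ (Finset.range K).erase m, blk (Function.update S m ∅ k) k z =
      ∏ k ∈ (Finset.range K).erase m, blk (S k) k z := by
    apply Finset.prod_congr rfl
    intro k hk
    rw [Function.update_of_ne (Finset.ne_of_mem_erase hk)]
  rw [e1, e2, one_mul]

end

/-! ### Horizontal translations -/

lemma sum_recip (a : ℝ) (ha : 0 ≤ a) (N : ℕ) :
    ∑ j ∈ Finset.range N, 1 / (a ^ 2 + ((j : ℝ) + 1) ^ 2) ≤
      4 * (1 / (a + 1) - 1 / (a + 1 + N)) := by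
  induction N with
  | zero => simp
  | succ N ih =>
    rw [Finset.sum_range_succ]
    have h1 : 0 < a + 1 + N := by positivity
    have h2 : 0 < a + 1 + ((N + 1 : ℕ) : ℝ) := by positivity
    have h3 : 1 / (a ^ 2 + ((N : ℝ) + 1) ^ 2) ≤
        4 * (1 / (a + 1 + N) - 1 / (a + 1 + ((N + 1 : ℕ) : ℝ))) := by
      have e : 4 * (1 / (a + 1 + N) - 1 / (a + 1 + ((N + 1 : ℕ) : ℝ))) =
          4 / ((a + 1 + N) * (a + 1 + ((N + 1 : ℕ) : ℝ))) := by
        push_cast
        push_cast at h2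
        field_simp
        ring
      rw [e, div_le_div_iff₀ (by positivity) (by positivity)]
      push_cast
      have hN : (0 : ℝ) ≤ N := Nat.cast_nonneg N
      nlinarith [sq_nonneg (a - ((N : ℝ) + 1)), mul_nonneg ha hN]
    linarith

/-- block sums -/
noncomputable def hk (A : Finset ℕ) (k : ℕ) (t : ℝ) : ℝ :=
  ∑ j ∈ A, (|t - X k| + 1) / (|t - X k| ^ 2 + ((j : ℝ) + 1) ^ 2)

lemma hk_le_four {A : Finset ℕ} {k : ℕ} (hA : A ⊆ Finset.range (4 ^ k)) (t : ℝ) :
    hk A k t ≤ 4 := by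
  unfold hk
  have ha : 0 ≤ |t - X k| := abs_nonneg _
  set a := |t - X k|
  have h1 : ∑ j ∈ A, (a + 1) / (a ^ 2 + ((j : ℝ) + 1) ^ 2) ≤
      ∑ j ∈ Finset.range (4 ^ k), (a + 1) / (a ^ 2 + ((j : ℝ) + 1) ^ 2) :=
    Finset.sum_le_sum_of_subset_of_nonneg hA (fun j _ _ => by positivity)
  refine h1.trans ?_
  have h2 : ∑ j ∈ Finset.range (4 ^ k), (a + 1) / (a ^ 2 + ((j : ℝ) + 1) ^ 2) =
      (a + 1) * ∑ j ∈ Finset.range (4 ^ k), 1 / (a ^ 2 + ((j : ℝ) + 1) ^ 2) := by
    rw [Finset.mul_sum]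
    apply Finset.sum_congr rfl
    intro j _
    ring
  rw [h2]
  have h3 := sum_recip a ha (4 ^ k)
  have h4 : 0 ≤ 1 / (a + 1 + ((4 ^ k : ℕ) : ℝ)) := by positivity
  have h5 : ∑ j ∈ Finset.range (4 ^ k), 1 / (a ^ 2 + ((j : ℝ) + 1) ^ 2) ≤ 4 * (1 / (a + 1)) := by
    linarith
  calc (a + 1) * ∑ j ∈ Finset.range (4 ^ k), 1 / (a ^ 2 + ((j : ℝ) + 1) ^ 2)
      ≤ (a + 1) * (4 * (1 / (a + 1))) := mul_le_mul_of_nonneg_left h5 (by positivity)
    _ = 4 := by field_simp

lemma hk_nonneg (A : Finset ℕ) (k : ℕ) (t : ℝ) : 0 ≤ hk A k t :=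
  Finset.sum_nonneg fun j _ => by positivity

lemma hk_far {A : Finset ℕ} {k : ℕ} (hA : A ⊆ Finset.range (4 ^ k)) {t : ℝ}
    (ht : X k / 2 ≤ |t - X k|) : hk A k t ≤ 4 * dl k := by
  unfold hk
  set a := |t - X k|
  have hX := X_pos k
  have hX16 : 16 ≤ X k := by
    unfold X
    calc (16 : ℝ) = 16 ^ 1 := (pow_one _).symm
      _ ≤ 16 ^ (k + 1) := pow_le_pow_right₀ (by norm_num) (by omega)
  have ha : 8 ≤ a := by linarith
  have h1 : ∀ j ∈ A, (a + 1) / (a ^ 2 + ((j : ℝ) + 1) ^ 2) ≤ 4 / X k := by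
    intro j _
    rw [div_le_div_iff₀ (by positivity) hX]
    nlinarith [sq_nonneg ((j : ℝ) + 1)]
  refine (Finset.sum_le_card_nsmul _ _ _ h1).trans ?_
  rw [nsmul_eq_mul, ← dl_eq]
  have h2 := card_le_of hA
  calc (A.card : ℝ) * (4 / X k) ≤ 4 ^ k * (4 / X k) :=
        mul_le_mul_of_nonneg_right h2 (by positivity)
    _ = 4 * (4 ^ k / X k) := by ring

lemma X_mono {k l : ℕ} (h : k < l) : 16 * X k ≤ X l := by
  unfold X
  calc (16 : ℝ) * 16 ^ (k + 1) = 16 ^ (k + 2) := by ring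
    _ ≤ 16 ^ (l + 1) := pow_le_pow_right₀ (by norm_num) (by omega)

lemma near_unique {t : ℝ} {k l : ℕ} (hk : |t - X k| < X k / 2) (hl : |t - X l| < X l / 2) :
    k = l := by
  rw [abs_lt] at hk hl
  have h1 := X_pos k
  have h2 := X_pos l
  rcases lt_trichotomy k l with h | h | h
  · have := X_mono h; linarith
  · exact h
  · have := X_mono h; linarith

lemma sum_hk_le {S : ℕ → Finset ℕ} (hS : ∀ k, S k ⊆ Finset.range (4 ^ k)) (t : ℝ) (K : ℕ) :
    ∑ k ∈ Finset.range K, hk (S k) k t ≤ 5 := by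
  classical
  have h1 : ∀ k ∈ Finset.range K, hk (S k) k t ≤
      4 * dl k + if |t - X k| < X k / 2 then 4 else 0 := by
    intro k _
    split_ifs with h
    · have := hk_le_four (hS k) t
      have := dl_pos k
      linarith
    · rw [not_lt] at h
      have := hk_far (hS k) h
      linarith
  refine (Finset.sum_le_sum h1).trans ?_
  rw [Finset.sum_add_distrib, ← Finset.mul_sum, ← Finset.sum_filter, Finset.sum_const,
    nsmul_eq_mul]
  have h2 : ((Finset.range K).filter fun k => |t - X k| < X k / 2).card ≤ 1 := by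
    rw [Finset.card_le_one]
    intro a ha b hb
    rw [Finset.mem_filter] at ha hb
    exact near_unique ha.2 hb.2
  have h2' : (((Finset.range K).filter fun k => |t - X k| < X k / 2).card : ℝ) ≤ 1 := by
    exact_mod_cast h2
  have h3 := dl_sum_le (Finset.range K)
  linarith

lemma pt_sub_sq (k j : ℕ) (z : ℂ) :
    ‖pt k j - z‖ ^ 2 = (z.re - X k) ^ 2 + (z.im + ((j : ℝ) + 1)) ^ 2 := by
  rw [← Complex.normSq_eq_norm_sq, Complex.normSq_apply, Complex.sub_re, Complex.sub_im, pt_re,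
    pt_im]
  ring

lemma factor_shift (k j : ℕ) (t x : ℝ) :
    ‖pt k j - ((t : ℂ) + x)‖ ≤ Real.exp ((|x| + x ^ 2) * ((|t - X k| + 1) /
      (|t - X k| ^ 2 + ((j : ℝ) + 1) ^ 2))) * ‖pt k j - t‖ := by
  have e1 := pt_sub_sq k j ((t : ℂ) + x)
  have e2 := pt_sub_sq k j (t : ℂ)
  simp only [Complex.add_re, Complex.add_im, Complex.ofReal_re, Complex.ofReal_im, add_zero,
    zero_add] at e1 e2
  set D : ℝ := |t - X k| ^ 2 + ((j : ℝ) + 1) ^ 2 with hD
  have hDpos : 0 < D := by positivity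
  have hD2 : (t - X k) ^ 2 + ((j : ℝ) + 1) ^ 2 = D := by rw [hD, sq_abs]
  set b : ℝ := (|x| + x ^ 2) * ((|t - X k| + 1) / D) with hb
  have h1 : ‖pt k j - ((t : ℂ) + x)‖ ^ 2 ≤ (Real.exp b * ‖pt k j - t‖) ^ 2 := by
    rw [mul_pow, e1, e2, hD2, ← Real.exp_nat_mul]
    have h2 : (t + x - X k) ^ 2 + ((j : ℝ) + 1) ^ 2 = D + (2 * (t - X k) * x + x ^ 2) := by
      rw [← hD2]; ring
    rw [h2]
    have h3 : 2 * (t - X k) * x + x ^ 2 ≤ 2 * ((|x| + x ^ 2) * (|t - X k| + 1)) := by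
      have h4 : (t - X k) * x ≤ |t - X k| * |x| := by
        rw [← abs_mul]; exact le_abs_self _
      have h5 : 0 ≤ |t - X k| * x ^ 2 := by positivity
      have h6 := abs_nonneg x
      nlinarith [sq_nonneg x]
    have h7 : D + (2 * (t - X k) * x + x ^ 2) ≤ (2 * b + 1) * D := by
      have : 2 * b * D = 2 * ((|x| + x ^ 2) * (|t - X k| + 1)) := by
        rw [hb]; field_simp
      nlinarith
    refine h7.trans ?_
    apply mul_le_mul_of_nonneg_right _ hDpos.le
    push_cast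
    exact Real.add_one_le_exp _
  exact (pow_le_pow_iff_left₀ (norm_nonneg _) (by positivity) (by norm_num)).1 h1

lemma blk_shift (A : Finset ℕ) (k : ℕ) (t x : ℝ) :
    ‖blk A k ((t : ℂ) + x)‖ ≤ Real.exp ((|x| + x ^ 2) * hk A k t) * ‖blk A k t‖ := by
  unfold blk hk
  rw [norm_prod, norm_prod, Finset.mul_sum, Real.exp_sum, ← Finset.prod_mul_distrib]
  apply Finset.prod_le_prod (fun _ _ => norm_nonneg _)
  intro j _
  rw [factor_norm, factor_norm, mul_div_assoc']
  exact div_le_div_of_nonneg_right (factor_shift k j t x) (norm_nonneg _)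

lemma Pr_shift {S : ℕ → Finset ℕ} (hS : ∀ k, S k ⊆ Finset.range (4 ^ k)) (t x : ℝ) :
    ‖Pr S ((t : ℂ) + x)‖ ≤ Real.exp ((|x| + x ^ 2) * 5) * ‖Pr S t‖ := by
  apply le_of_tendsto_of_tendsto' (tendsto_Pr hS ((t : ℂ) + x)).norm
    ((tendsto_Pr hS (t : ℂ)).norm.const_mul _)
  intro K
  rw [norm_prod, norm_prod]
  calc ∏ k ∈ Finset.range K, ‖blk (S k) k ((t : ℂ) + x)‖
      ≤ ∏ k ∈ Finset.range K, (Real.exp ((|x| + x ^ 2) * hk (S k) k t) * ‖blk (S k) k t‖) :=
        Finset.prod_le_prod (fun _ _ => norm_nonneg _) (fun k _ => blk_shift (S k) k t x)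
    _ = Real.exp ((|x| + x ^ 2) * ∑ k ∈ Finset.range K, hk (S k) k t) *
        ∏ k ∈ Finset.range K, ‖blk (S k) k t‖ := by
        rw [Finset.prod_mul_distrib, ← Real.exp_sum, Finset.mul_sum]
    _ ≤ _ := by
        apply mul_le_mul_of_nonneg_right _ (Finset.prod_nonneg fun _ _ => norm_nonneg _)
        apply Real.exp_le_exp.2
        exact mul_le_mul_of_nonneg_left (sum_hk_le hS t K) (by positivity)

end Pool.Agent.R884.DB
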